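import Pool.Agent.H349R3.Stmt

/-!
The general fibres of length `8` of generic projections need not be smoothable.
-/

namespace Pool.Agent.Results.MP_37c606_ag.NonSmoothableFibres

open Pool.Agent.H349R3

/-- For every `n ≥ 28` there is a smooth irreducible projective variety `X ⊆ ℙ^{n+7}` of
dimension `n`, with homogeneous ideal `I`, such that for a general linear subspace
`Λ = ℙ(L) ⊆ ℙ^{n+7}` of projective dimension `3`: `Λ` does not meet `X`; the projection
`π_Λ : X → ℙ^{n+3}` has a fibre of length `8`; and no fibre of length `8` of `π_Λ` is smoothable. -/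
theorem result (n : ℕ) (hn : 28 ≤ n) :
    ∃ I : PIdeal (n + 7), IsSmoothVariety n I ∧
      ForGeneral (n + 7) 4 fun L =>
        NotMeets I L ∧ (∃ v, v ∉ L ∧ HasLength I L v 8) ∧
        ∀ v, v ∉ L → HasLength I L v 8 → ¬ SmoothableFibre I L v :=
  final n hn

end Pool.Agent.Results.MP_37c606_ag.NonSmoothableFibres
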